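import Mathlib

/-!
# A homogeneous structure with `FPT_1` but without `FPT_2`

The structure has universe `ℕ × ZMod 3` (countably many classes of size three) and one relation
`D(x, y, u, v)`: the points `x, y` lie in one class, the points `u, v` lie in one class, and
`y - x = v - u`.  Its automorphisms are the maps `(c, t) ↦ (π c, σ t + τ c)` where `π` is a
permutation of `ℕ`, `τ` is arbitrary and `σ = ± 1` is one global sign.

* It is ultrahomogeneous.
* A one-type over it that is not realised is invariant, and every subflow of the space of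
  one-types contains such a type.
* A pair of distinct points of one class determines an orientation of all classes, and the
  automorphisms with `σ = -1` reverse it; so the subflow of two-types containing
  `D(x, y, x, y)` and `x ≠ y` has no fixed point.
-/

open FirstOrder

namespace Pool.Agent.Results.MP_01066e_lc.SeparateFPT

variable (L : FirstOrder.Language.{0, 0}) (M : Type) [L.Structure M]

/-- The Stone space of complete `n`-types over `M`, with parameters from `M`: complete types, in
`n` variables, of the elementary diagram of `M` (with the topology Mathlib puts on it). -/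
abbrev TypeSpace (n : ℕ) : Type :=
  (L.elementaryDiagram M).CompleteType (Fin n)

variable {L M}

/-- The map of the language with parameters (and `n` further constants for the variables) that
replaces each parameter `m` by `g m` and leaves everything else unchanged. -/
def paramMap (g : M ≃[L] M) (n : ℕ) : L[[M]][[Fin n]] →ᴸ L[[M]][[Fin n]] :=
  (L.lhomWithConstantsMap g).addConstants (Fin n)

lemma paramMap_symm_comp (g : M ≃[L] M) (n : ℕ) :
    (paramMap g.symm n).comp (paramMap g n) = Language.LHom.id _ := by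
  ext k f
  · rcases f with (f | f) | f
    · rfl
    · cases k
      · exact congrArg (fun x : M => (Sum.inl (Sum.inr x) :
          (L[[M]][[Fin n]]).Functions 0)) (g.symm_apply_apply f)
      · exact f.elim
    · rfl
  · rcases f with (f | f) | f
    · rfl
    · cases f
    · rfl

/-- the structure on `M` for the language with parameters and `n` variable constants, where the
parameter `m` is interpreted by `c m` and the `i`-th variable by `a i` -/
@[reducible] def str (n : ℕ) (c : M → M) (a : Fin n → M) : L[[M]][[Fin n]].Structure M :=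
  @Language.withConstantsStructure (L[[M]]) M
    (@Language.withConstantsStructure L M _ M (Language.constantsOn.structure c)) (Fin n)
    (Language.constantsOn.structure a)

/-- truth of a sentence when parameters are interpreted by `c` and variables by `a` -/
def Tr {n : ℕ} (c : M → M) (a : Fin n → M) (ψ : L[[M]][[Fin n]].Sentence) : Prop :=
  @Language.Sentence.Realize _ M (str n c a) ψ

/-- the `L`-formula with variables `M ⊕ Fin n` -/
noncomputable def toF {n : ℕ} (ψ : L[[M]][[Fin n]].Sentence) : L.Formula (M ⊕ Fin n) :=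
  Language.BoundedFormula.constantsVarsEquiv (Language.Formula.equivSentence.symm ψ)

/-- the structure for the language with parameters only -/
@[reducible] def pstr (c : M → M) : L[[M]].Structure M :=
  @Language.withConstantsStructure L M _ M (Language.constantsOn.structure c)

lemma tr_iff_formula {n : ℕ} (c : M → M) (a : Fin n → M) (ψ : L[[M]][[Fin n]].Sentence) :
    Tr c a ψ ↔ @Language.Formula.Realize (L[[M]]) M (pstr c) (Fin n)
      (Language.Formula.equivSentence.symm ψ) a :=
  (@Language.Formula.realize_equivSentence_symm (L[[M]]) M (pstr c) (Fin n) ψ a).symm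

lemma tr_iff_toF {n : ℕ} (c : M → M) (a : Fin n → M) (ψ : L[[M]][[Fin n]].Sentence) :
    Tr c a ψ ↔ (toF ψ).Realize (Sum.elim c a) := by
  rw [tr_iff_formula]
  unfold toF Language.Formula.Realize
  let s1 : (Language.constantsOn M).Structure M := Language.constantsOn.structure c
  let s2 : L[[M]].Structure M := @Language.withConstantsStructure L M _ M s1
  exact (@Language.BoundedFormula.realize_constantsVarsEquiv L M _ M (Fin n) s2
    (@Language.withConstants_expansion L M _ M s1) 0
    (Language.Formula.equivSentence.symm ψ) a default).symm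

lemma tr_equiv {n : ℕ} (g : M ≃[L] M) (c : M → M) (a : Fin n → M)
    (ψ : L[[M]][[Fin n]].Sentence) : Tr (g ∘ c) (g ∘ a) ψ ↔ Tr c a ψ := by
  rw [tr_iff_toF, tr_iff_toF, ← Sum.comp_elim]
  exact Language.StrongHomClass.realize_formula g (toF ψ)

lemma tr_support {n : ℕ} (ψ : L[[M]][[Fin n]].Sentence) :
    ∃ A : Finset M, ∀ c c' : M → M, (∀ m ∈ A, c m = c' m) → ∀ a : Fin n → M,
      (Tr c a ψ ↔ Tr c' a ψ) := by
  classical
  refine ⟨(toF ψ).freeVarFinset.toLeft, fun c c' h a => ?_⟩
  rw [tr_iff_toF, tr_iff_toF]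
  unfold Language.Formula.Realize
  have key : ∀ v v' : M ⊕ Fin n → M, (∀ x ∈ (toF ψ).freeVarFinset, v x = v' x) →
      (Language.BoundedFormula.Realize (toF ψ) v default ↔
        Language.BoundedFormula.Realize (toF ψ) v' default) := by
    intro v v' hv
    rw [← Language.BoundedFormula.realize_restrictFreeVar' (φ := toF ψ) (s := (toF ψ).freeVarFinset)
      Set.Subset.rfl (v := v),
      ← Language.BoundedFormula.realize_restrictFreeVar' (φ := toF ψ) (s := (toF ψ).freeVarFinset)
      Set.Subset.rfl (v := v')]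
    have : (v ∘ (Subtype.val : ((toF ψ).freeVarFinset : Set (M ⊕ Fin n)) → _)) =
        v' ∘ Subtype.val := by
      funext x
      exact hv x.1 x.2
    rw [this]
  apply key
  intro x hx
  rcases x with m | i
  · exact h m (by simpa using hx)
  · rfl

lemma tr_paramMap {n : ℕ} (g : M ≃[L] M) (c : M → M) (a : Fin n → M)
    (ψ : L[[M]][[Fin n]].Sentence) : Tr c a ((paramMap g n).onSentence ψ) ↔ Tr (c ∘ g) a ψ := by
  have hexp : @Language.LHom.IsExpansionOn _ _ (paramMap g n) M (str n (c ∘ g) a) (str n c a) := by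
    refine @Language.LHom.IsExpansionOn.mk _ _ (paramMap g n) M (str n (c ∘ g) a) (str n c a) ?_ ?_
    · intro k f x
      rcases f with (f | f) | f
      · rfl
      · cases k
        · rfl
        · exact f.elim
      · rfl
    · intro k f x
      rcases f with (f | f) | f
      · rfl
      · cases f
      · rfl
  exact @Language.LHom.realize_onSentence _ _ M (str n (c ∘ g) a) (str n c a) (paramMap g n) hexp ψ


lemma tr_id_iff {n : ℕ} (a : Fin n → M) (ψ : L[[M]][[Fin n]].Sentence) :
    Tr id a ψ ↔ (Language.Formula.equivSentence.symm ψ).Realize a :=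
  tr_iff_formula id a ψ

lemma mem_of_valid {n : ℕ} [Nonempty M] (p : TypeSpace L M n) {ψ : L[[M]][[Fin n]].Sentence}
    (h : ∀ a : Fin n → M, Tr id a ψ) : ψ ∈ p := by
  apply p.mem_of_models
  have hψ : ψ = Language.Formula.equivSentence (Language.Formula.equivSentence.symm ψ) :=
    (Equiv.apply_symm_apply _ _).symm
  rw [hψ, ← Language.Theory.models_formula_iff_onTheory_models_equivSentence]
  set φ := Language.Formula.equivSentence.symm ψ with hφ
  let φ' : L[[M]].Formula (Empty ⊕ Fin n) := φ.relabel Sum.inr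
  have hmem : φ'.iAlls (Fin n) ∈ L.elementaryDiagram M := by
    show M ⊨ φ'.iAlls (Fin n)
    unfold Language.Sentence.Realize
    rw [Language.Formula.realize_iAlls]
    intro i
    rw [Language.Formula.realize_relabel]
    have := (tr_id_iff i ψ).1 (h i)
    simpa using this
  intro N v xs
  have h1 : N ⊨ φ'.iAlls (Fin n) := N.is_model.realize_of_mem _ hmem
  unfold Language.Sentence.Realize at h1
  rw [Language.Formula.realize_iAlls] at h1
  have h2 := h1 v
  rw [Language.Formula.realize_relabel] at h2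
  rw [Language.Formula.boundedFormula_realize_eq_realize]
  simpa using h2

lemma mem_of_imp {n : ℕ} [Nonempty M] (p : TypeSpace L M n) {ψ χ : L[[M]][[Fin n]].Sentence}
    (hψ : ψ ∈ p) (h : ∀ a : Fin n → M, Tr id a ψ → Tr id a χ) : χ ∈ p := by
  have h1 : ψ.imp χ ∈ p := by
    apply mem_of_valid
    intro a
    exact (@Language.Sentence.realize_imp _ M (str n id a) ψ χ).2 (h a)
  rcases p.mem_or_not_mem χ with h2 | h2
  · exact h2
  · exfalso
    obtain ⟨N⟩ := p.isMaximal.1
    have a1 : N ⊨ ψ := N.is_model.realize_of_mem _ hψ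
    have a2 : N ⊨ ψ.imp χ := N.is_model.realize_of_mem _ h1
    have a3 : N ⊨ χ.not := N.is_model.realize_of_mem _ h2
    exact a3 ((Language.Sentence.realize_imp N).1 a2 a1)


lemma onSentence_comp_symm {n : ℕ} (g : M ≃[L] M) (ψ : L[[M]][[Fin n]].Sentence) :
    (paramMap g n).onSentence ((paramMap g.symm n).onSentence ψ) = ψ := by
  have h := paramMap_symm_comp g.symm n
  rw [Language.Equiv.symm_symm] at h
  show (paramMap g n).onBoundedFormula ((paramMap g.symm n).onBoundedFormula ψ) = ψ
  have h2 := congrFun (Language.LHom.comp_onBoundedFormula (n := 0) (α := Empty)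
    (paramMap g n) (paramMap g.symm n)) ψ
  rw [h, Language.LHom.id_onBoundedFormula] at h2
  exact h2.symm

lemma mem_image_iff {n : ℕ} (g : M ≃[L] M) (S : Set (L[[M]][[Fin n]].Sentence))
    (ψ : L[[M]][[Fin n]].Sentence) :
    ψ ∈ (paramMap g n).onSentence '' S ↔ (paramMap g.symm n).onSentence ψ ∈ S := by
  constructor
  · rintro ⟨χ, hχ, rfl⟩
    have := onSentence_comp_symm g.symm χ
    rw [Language.Equiv.symm_symm] at this
    rwa [this]
  · intro h
    exact ⟨_, h, onSentence_comp_symm g ψ⟩

/-- The action of `Aut(M)` on the space of `n`-types over `M`: the type `act g p` consists of the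
`φ(x, g m)` with `φ(x, m)` in `p`. -/
def act {n : ℕ} [Nonempty M] (g : M ≃[L] M) (p : TypeSpace L M n) : TypeSpace L M n where
  toTheory := (paramMap g n).onSentence '' p.toTheory
  subset' := by
    intro θ hθ
    rw [mem_image_iff]
    rw [Language.LHom.mem_onTheory] at hθ
    obtain ⟨θ0, h0, rfl⟩ := hθ
    apply mem_of_valid p
    intro a
    rw [tr_paramMap]
    have h1 : Tr id (g ∘ a) ((L[[M]].lhomWithConstants (Fin n)).onSentence θ0) := by
      let s1 : (Language.constantsOn (Fin n)).Structure M := Language.constantsOn.structure (g ∘ a)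
      exact (Language.LHom.realize_onSentence M (L[[M]].lhomWithConstants (Fin n)) θ0).2 h0
    have h2 := tr_equiv g.symm id (g ∘ a) ((L[[M]].lhomWithConstants (Fin n)).onSentence θ0)
    have h3 : g.symm ∘ (g ∘ a) = a := by
      funext i; simp
    rw [h3] at h2
    exact h2.2 h1
  isMaximal' := by
    constructor
    · apply Language.Theory.isSatisfiable_of_isSatisfiable_onTheory (paramMap g.symm n)
      refine p.isMaximal.1.mono ?_
      rintro _ ⟨_, ⟨χ, hχ, rfl⟩, rfl⟩
      have := onSentence_comp_symm g.symm χ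
      rw [Language.Equiv.symm_symm] at this
      rw [this]
      exact hχ
    · intro θ
      rw [mem_image_iff, mem_image_iff]
      exact p.mem_or_not_mem ((paramMap g.symm n).onSentence θ)

lemma mem_act_iff {n : ℕ} [Nonempty M] (g : M ≃[L] M) (p : TypeSpace L M n)
    (ψ : L[[M]][[Fin n]].Sentence) :
    ψ ∈ act g p ↔ (paramMap g.symm n).onSentence ψ ∈ p :=
  mem_image_iff g _ ψ

lemma onSentence_mem_act {n : ℕ} [Nonempty M] (g : M ≃[L] M) (p : TypeSpace L M n)
    (ψ : L[[M]][[Fin n]].Sentence) :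
    (paramMap g n).onSentence ψ ∈ act g p ↔ ψ ∈ p := by
  rw [mem_act_iff]
  have := onSentence_comp_symm g.symm ψ
  rw [Language.Equiv.symm_symm] at this
  rw [this]

/-- A subflow: a nonempty closed set of `n`-types over `M` that is invariant under `Aut(M)`. -/
def IsSubflow {n : ℕ} [Nonempty M] (X : Set (TypeSpace L M n)) : Prop :=
  X.Nonempty ∧ IsClosed X ∧ ∀ (g : M ≃[L] M), ∀ p ∈ X, act g p ∈ X

variable (L M) in
/-- The property `FPT_n` of the problem: every subflow of `Aut(M)` acting on the space of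
`n`-types over `M` contains a fixed point. -/
def HasFPT [Nonempty M] (n : ℕ) : Prop :=
  ∀ X : Set (TypeSpace L M n), IsSubflow X → ∃ p ∈ X, ∀ g : M ≃[L] M, act g p = p


lemma exists_of_subset {n : ℕ} [Nonempty M] (p : TypeSpace L M n)
    (t : Finset (L[[M]][[Fin n]].Sentence)) (ht : ∀ ψ ∈ t, ψ ∈ p) :
    ∃ a : Fin n → M, ∀ ψ ∈ t, Tr id a ψ := by
  by_contra hcon
  push Not at hcon
  have h1 : t.toList.foldr (· ⊓ ·) ⊤ ∈ p :=
    Language.Theory.CompleteType.toList_foldr_inf_mem.2 (fun ψ hψ => ht ψ hψ)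
  have h2 : (t.toList.foldr (· ⊓ ·) ⊤ : L[[M]][[Fin n]].Sentence).not ∈ p := by
    apply mem_of_valid
    intro a
    obtain ⟨ψ, hψ, hn⟩ := hcon a
    refine (@Language.Sentence.realize_not _ M (str n id a) _).2 ?_
    intro hr
    apply hn
    have := (@Language.BoundedFormula.realize_foldr_inf _ M (str n id a) _ 0 t.toList
      default default).1 hr
    exact this ψ (Finset.mem_toList.2 hψ)
  exact (p.not_mem_iff _).1 h2 h1


/-! ### The structure -/

/-- one relation symbol, of arity four -/
inductive DiffRel : ℕ → Type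
  | d : DiffRel 4

/-- the relational language with one relation symbol, of arity four -/
def diffLang : FirstOrder.Language.{0, 0} := ⟨fun _ => Empty, DiffRel⟩

/-- the universe: countably many classes `{c} × ZMod 3` -/
abbrev Pt : Type := ℕ × ZMod 3

/-- `x, y` lie in one class, `u, v` lie in one class, and `y - x = v - u` -/
def D (x y u v : Pt) : Prop :=
  x.1 = y.1 ∧ u.1 = v.1 ∧ y.2 - x.2 = v.2 - u.2

instance : diffLang.Structure Pt where
  funMap := fun f => Empty.elim f
  RelMap := fun r x => match r, x with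
    | DiffRel.d, x => D (x 0) (x 1) (x 2) (x 3)

instance : diffLang.IsRelational := fun _ => inferInstanceAs (IsEmpty Empty)

instance : Countable (Σ n, diffLang.Relations n) := by
  have : Function.Surjective (fun _ : Unit => (⟨4, DiffRel.d⟩ : Σ n, diffLang.Relations n)) := by
    rintro ⟨n, r⟩
    cases r
    exact ⟨(), rfl⟩
  exact this.countable

lemma relMap_d (x : Fin 4 → Pt) :
    Language.Structure.RelMap (L := diffLang) (DiffRel.d : diffLang.Relations 4) x ↔
      D (x 0) (x 1) (x 2) (x 3) := Iff.rfl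

lemma D_same (x y : Pt) : D x y x y ↔ x.1 = y.1 := by
  unfold D; tauto

/-- the automorphism `(c, t) ↦ (π c, σ t + τ c)`, where `σ * σ = 1` -/
def mkAut (π : Equiv.Perm ℕ) (σ : ZMod 3) (hσ : σ * σ = 1) (τ : ℕ → ZMod 3) :
    Pt ≃[diffLang] Pt where
  toFun := fun p => (π p.1, σ * p.2 + τ p.1)
  invFun := fun p => (π.symm p.1, σ * (p.2 - τ (π.symm p.1)))
  left_inv := by
    rintro ⟨c, t⟩
    simp only [Equiv.symm_apply_apply, Prod.mk.injEq, true_and, add_sub_cancel_right]
    rw [← mul_assoc, hσ, one_mul]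
  right_inv := by
    rintro ⟨c, t⟩
    simp only [Equiv.apply_symm_apply, Prod.mk.injEq, true_and]
    rw [← mul_assoc, hσ, one_mul, sub_add_cancel]
  map_fun' := fun f => Empty.elim f
  map_rel' := by
    intro n r x
    cases r
    show D _ _ _ _ ↔ D _ _ _ _
    unfold D
    simp only [Function.comp_apply, EmbeddingLike.apply_eq_iff_eq]
    constructor
    · rintro ⟨h1, h2, h3⟩
      refine ⟨h1, h2, ?_⟩
      rw [h1, h2] at h3
      have h4 : σ * ((x 1).2 - (x 0).2) = σ * ((x 3).2 - (x 2).2) := by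
        linear_combination h3
      have h5 := congrArg (fun z => σ * z) h4
      simpa only [← mul_assoc, hσ, one_mul] using h5
    · rintro ⟨h1, h2, h3⟩
      refine ⟨h1, h2, ?_⟩
      rw [h1, h2]
      linear_combination σ * h3

lemma mkAut_apply (π : Equiv.Perm ℕ) (σ : ZMod 3) (hσ : σ * σ = 1) (τ : ℕ → ZMod 3) (p : Pt) :
    mkAut π σ hσ τ p = (π p.1, σ * p.2 + τ p.1) := rfl

/-- moving a point, fixing pointwise every class not met by the two points -/
lemma exists_move (a a' : Pt) : ∃ g : Pt ≃[diffLang] Pt, g a = a' ∧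
    ∀ m : Pt, m.1 ≠ a.1 → m.1 ≠ a'.1 → g m = m := by
  refine ⟨mkAut (Equiv.swap a.1 a'.1) 1 (by ring) (fun c => if c = a.1 then a'.2 - a.2 else 0),
    ?_, ?_⟩
  · rw [mkAut_apply]
    simp
  · intro m h1 h2
    rw [mkAut_apply, Equiv.swap_apply_of_ne_of_ne h1 h2]
    simp [h1]

lemma zmod3_cases (δ z : ZMod 3) (hδ : δ ≠ 0) : z = 0 ∨ z = δ ∨ z = -δ := by
  revert δ z; decide

lemma zmod3_aux1 : ∀ δ δ' : ZMod 3, δ ≠ 0 → δ' ≠ 0 → δ' * δ * (δ' * δ) = 1 := by decide

lemma zmod3_aux2 : ∀ δ δ' : ZMod 3, δ ≠ 0 → δ' * δ * δ = δ' := by decide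

lemma exists_perm (C : Finset ℕ) (γ : ℕ → ℕ) (hγ : Set.InjOn γ C) :
    ∃ π : Equiv.Perm ℕ, ∀ c ∈ C, π c = γ c := by
  have hinj : Function.Injective (fun c : C => γ c) := by
    intro x y hxy
    exact Subtype.ext (hγ x.2 y.2 hxy)
  let e : Fin C.card ≃ C := (Finset.equivFin C).symm
  let x : Fin C.card ↪ ℕ := e.toEmbedding.trans (Function.Embedding.subtype _)
  let y : Fin C.card ↪ ℕ := e.toEmbedding.trans ⟨fun c : C => γ c, hinj⟩
  have hm := Equiv.Perm.isMultiplyPretransitive ℕ C.card
  obtain ⟨π, hπ⟩ := hm.exists_smul_eq x y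
  refine ⟨π, fun c hc => ?_⟩
  have h1 := congrArg (fun z : Fin C.card ↪ ℕ => z (e.symm ⟨c, hc⟩)) hπ
  have h2 : (π • x) (e.symm ⟨c, hc⟩) = π (x (e.symm ⟨c, hc⟩)) := rfl
  simp only [h2] at h1
  simpa [x, y] using h1


lemma embedding_D {S : diffLang.Substructure Pt} (f : S ↪[diffLang] Pt) (a b c d : S) :
    D (f a) (f b) (f c) (f d) ↔ D a b c d := by
  have h := f.map_rel (DiffRel.d : diffLang.Relations 4) ![a, b, c, d]
  exact h

theorem ultrahomogeneous : diffLang.IsUltrahomogeneous Pt := by
  classical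
  intro S hS f
  have hfin : (S : Set Pt).Finite := by
    obtain ⟨t, ht⟩ := hS
    rw [← ht, Language.Substructure.closure_eq_of_isRelational]
    exact t.finite_toSet
  let T : Finset Pt := hfin.toFinset
  have hT : ∀ x, x ∈ T ↔ x ∈ S := by intro x; simp [T]
  have hcls : ∀ a b : S, (f a).1 = (f b).1 ↔ (a : Pt).1 = (b : Pt).1 := by
    intro a b
    have := embedding_D f a b a b
    rwa [D_same, D_same] at this
  -- the class map
  have hrep : ∀ c : ℕ, ∃ x : Pt, (∃ h : x ∈ S, x.1 = c) ∨ ¬ ∃ y ∈ S, y.1 = c := by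
    intro c
    by_cases h : ∃ y ∈ S, y.1 = c
    · obtain ⟨y, hy, hc⟩ := h
      exact ⟨y, Or.inl ⟨hy, hc⟩⟩
    · exact ⟨(0, 0), Or.inr h⟩
  choose rep hrep using hrep
  let F : Pt → Pt := fun x => if h : x ∈ S then f ⟨x, h⟩ else x
  have hF : ∀ x (h : x ∈ S), F x = f ⟨x, h⟩ := fun x h => dif_pos h
  have hrepS : ∀ x ∈ S, rep x.1 ∈ S ∧ (rep x.1).1 = x.1 := by
    intro x hx
    rcases hrep x.1 with ⟨h1, h2⟩ | h
    · exact ⟨h1, h2⟩
    · exact absurd ⟨x, hx, rfl⟩ h
  have hFcls : ∀ x ∈ S, ∀ y ∈ S, (F x).1 = (F y).1 ↔ x.1 = y.1 := by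
    intro x hx y hy
    rw [hF x hx, hF y hy]
    exact hcls ⟨x, hx⟩ ⟨y, hy⟩
  have hFD : ∀ x ∈ S, ∀ y ∈ S, ∀ u ∈ S, ∀ v ∈ S, D (F x) (F y) (F u) (F v) ↔ D x y u v := by
    intro x hx y hy u hu v hv
    rw [hF x hx, hF y hy, hF u hu, hF v hv]
    exact embedding_D f ⟨x, hx⟩ ⟨y, hy⟩ ⟨u, hu⟩ ⟨v, hv⟩
  have hFinj : ∀ x ∈ S, ∀ y ∈ S, F x = F y → x = y := by
    intro x hx y hy h
    rw [hF x hx, hF y hy] at h
    exact congrArg Subtype.val (f.injective h)
  let C : Finset ℕ := T.image Prod.fst
  let γ : ℕ → ℕ := fun c => (F (rep c)).1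
  have hγ : Set.InjOn γ C := by
    intro c hc c' hc' h
    simp only [C, Finset.coe_image, Set.mem_image, Finset.mem_coe, hT] at hc hc'
    obtain ⟨x, hx, rfl⟩ := hc
    obtain ⟨x', hx', rfl⟩ := hc'
    obtain ⟨h1, h2⟩ := hrepS x hx
    obtain ⟨h1', h2'⟩ := hrepS x' hx'
    have := (hFcls _ h1 _ h1').1 h
    rw [h2, h2'] at this
    exact this
  obtain ⟨π, hπ⟩ := exists_perm C γ hγ
  have hπ' : ∀ x ∈ S, π x.1 = (F x).1 := by
    intro x hx
    rw [hπ x.1 (by simp only [C, Finset.mem_image, hT]; exact ⟨x, hx, rfl⟩)]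
    obtain ⟨h1, h2⟩ := hrepS x hx
    exact (hFcls _ h1 _ hx).2 h2
  -- the sign
  have hsign : ∃ σ : ZMod 3, σ * σ = 1 ∧ ∀ u ∈ S, ∀ v ∈ S, u.1 = v.1 →
      (F v).2 - (F u).2 = σ * (v.2 - u.2) := by
    by_cases hex : ∃ s ∈ S, ∃ s' ∈ S, s.1 = s'.1 ∧ s.2 ≠ s'.2
    · obtain ⟨s, hs, s', hs', hc, hne⟩ := hex
      have hδ : s'.2 - s.2 ≠ 0 := sub_ne_zero.2 (Ne.symm hne)
      have hFc : (F s).1 = (F s').1 := (hFcls s hs s' hs').2 hc
      have hδ' : (F s').2 - (F s).2 ≠ 0 := by
        intro h0
        apply hne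
        have : F s = F s' := Prod.ext hFc (sub_eq_zero.1 h0).symm
        rw [hFinj s hs s' hs' this]
      set δ := s'.2 - s.2 with hδdef
      set δ' := (F s').2 - (F s).2 with hδ'def
      refine ⟨δ' * δ, ?_, ?_⟩
      · exact zmod3_aux1 δ δ' hδ hδ'
      · intro u hu v hv huv
        have hFuv : (F u).1 = (F v).1 := (hFcls u hu v hv).2 huv
        have hsq : δ' * δ * δ = δ' := zmod3_aux2 δ δ' hδ
        rcases zmod3_cases δ (v.2 - u.2) hδ with h | h | h
        · have huv' : u = v := Prod.ext huv (sub_eq_zero.1 h).symm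
          rw [huv']; simp
        · have h1 : D s s' u v := ⟨hc, huv, by rw [h]⟩
          have h2 := (hFD s hs s' hs' u hu v hv).2 h1
          rw [h, hsq]
          exact h2.2.2.symm
        · have h1 : D s s' v u := ⟨hc, huv.symm, by
            rw [← hδdef]; linear_combination h⟩
          have h2 := (hFD s hs s' hs' v hv u hu).2 h1
          have h3 : δ' = (F u).2 - (F v).2 := h2.2.2
          rw [h]
          linear_combination h3 + hsq
    · push Not at hex
      refine ⟨1, by ring, fun u hu v hv huv => ?_⟩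
      have h1 := hex u hu v hv huv
      have h2 : u = v := Prod.ext huv h1
      rw [h2]; simp
  obtain ⟨σ, hσ, hσF⟩ := hsign
  refine ⟨mkAut π σ hσ (fun c => (F (rep c)).2 - σ * (rep c).2), ?_⟩
  ext1 x
  have hx : (x : Pt) ∈ S := x.2
  obtain ⟨h1, h2⟩ := hrepS x hx
  have h3 := hσF _ h1 _ hx h2
  change f x = mkAut π σ hσ (fun c => (F (rep c)).2 - σ * (rep c).2) (x : Pt)
  rw [mkAut_apply]
  have h4 : F (x : Pt) = f x := hF _ hx
  rw [← h4, hπ' x hx]
  refine Prod.ext rfl ?_
  simp only
  linear_combination h3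


/-! ### Sentences used in the proof -/

/-- the sentence `x₀ = m` -/
noncomputable def eqS (m : Pt) : (diffLang[[Pt]][[Fin 1]]).Sentence :=
  Language.Formula.equivSentence
    (Language.Term.equal (Language.Term.var 0 : (diffLang[[Pt]]).Term (Fin 1))
      (Language.Constants.term (diffLang.con m)))

lemma tr_eqS (c : Pt → Pt) (a : Fin 1 → Pt) (m : Pt) : Tr c a (eqS m) ↔ a 0 = c m := by
  rw [tr_iff_formula]
  unfold eqS
  rw [Equiv.symm_apply_apply]
  rw [@Language.Formula.realize_equal _ Pt (pstr c)]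
  rfl

lemma tr_not {n : ℕ} (c : M → M) (a : Fin n → M) (ψ : L[[M]][[Fin n]].Sentence) :
    Tr c a ψ.not ↔ ¬ Tr c a ψ :=
  @Language.Sentence.realize_not _ M (str n c a) ψ

lemma mem_congr {n : ℕ} [Nonempty M] (p : TypeSpace L M n) {ψ χ : L[[M]][[Fin n]].Sentence}
    (h : ∀ a : Fin n → M, Tr id a ψ ↔ Tr id a χ) : ψ ∈ p ↔ χ ∈ p :=
  ⟨fun hψ => mem_of_imp p hψ fun a => (h a).1, fun hχ => mem_of_imp p hχ fun a => (h a).2⟩

lemma eqS_unique (p : TypeSpace diffLang Pt 1) {m m' : Pt} (h : eqS m ∈ p) (h' : eqS m' ∈ p) :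
    m = m' := by
  classical
  obtain ⟨a, ha⟩ := exists_of_subset p {eqS m, eqS m'} (by
    intro ψ hψ
    simp only [Finset.mem_insert, Finset.mem_singleton] at hψ
    rcases hψ with rfl | rfl
    · exact h
    · exact h')
  have h1 := (tr_eqS id a m).1 (ha _ (by simp))
  have h2 := (tr_eqS id a m').1 (ha _ (by simp))
  exact h1.symm.trans h2

lemma eqS_act (g : Pt ≃[diffLang] Pt) (p : TypeSpace diffLang Pt 1) (m : Pt) :
    eqS m ∈ p → eqS (g m) ∈ act g p := by
  intro h
  have h1 := (onSentence_mem_act g p (eqS m)).2 h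
  refine (mem_congr _ ?_).1 h1
  intro a
  rw [tr_paramMap, tr_eqS, tr_eqS]
  rfl

/-- A one-type that is realised by no element of the model is invariant. -/
lemma fixed_of_not_realised (p : TypeSpace diffLang Pt 1) (hp : ∀ m, eqS m ∉ p)
    (g : Pt ≃[diffLang] Pt) : act g p = p := by
  classical
  have key : ∀ (g : Pt ≃[diffLang] Pt) (ψ : (diffLang[[Pt]][[Fin 1]]).Sentence), ψ ∈ p →
      (paramMap g 1).onSentence ψ ∈ p := by
    intro g ψ hψ
    obtain ⟨A, hA⟩ := tr_support ψ
    -- the union of the classes met by the support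
    let B : Finset Pt := (A.image Prod.fst) ×ˢ (Finset.univ : Finset (ZMod 3))
    have hB : ∀ x : Pt, x ∉ B → ∀ m ∈ A, m.1 ≠ x.1 := by
      intro x hx m hm h
      apply hx
      simp only [B, Finset.mem_product, Finset.mem_image, Finset.mem_univ, and_true]
      exact ⟨m, hm, h⟩
    obtain ⟨a, ha⟩ := exists_of_subset p (insert ψ (B.image fun m => (eqS m).not)) (by
      intro χ hχ
      rw [Finset.mem_insert, Finset.mem_image] at hχ
      rcases hχ with rfl | ⟨m, _, rfl⟩
      · exact hψ
      · exact (p.not_mem_iff _).2 (hp m))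
    have ha1 : Tr id a ψ := ha _ (Finset.mem_insert_self _ _)
    have ha2 : a 0 ∉ B := by
      intro hmem
      have := ha _ (Finset.mem_insert_of_mem (Finset.mem_image_of_mem _ hmem))
      rw [tr_not, tr_eqS] at this
      exact this rfl
    have hall : ∀ b : Fin 1 → Pt, b 0 ∉ B → Tr id b ψ := by
      intro b hb
      obtain ⟨k, hk1, hk2⟩ := exists_move (a 0) (b 0)
      have hkb : (k ∘ a : Fin 1 → Pt) = b := by
        funext i
        have hi : i = 0 := Subsingleton.elim _ _
        subst hi
        exact hk1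
      have h1 : Tr (k ∘ id) (k ∘ a) ψ := (tr_equiv k id a ψ).2 ha1
      rw [hkb] at h1
      refine (hA (k ∘ id) id ?_ b).1 h1
      intro m hm
      exact hk2 m (hB _ ha2 m hm) (hB _ hb m hm)
    by_contra hcon
    have hcon' := (p.not_mem_iff _).2 hcon
    obtain ⟨b, hb⟩ := exists_of_subset p
      (insert ((paramMap g 1).onSentence ψ).not (B.image fun m => (eqS (g m)).not)) (by
      intro χ hχ
      rw [Finset.mem_insert, Finset.mem_image] at hχ
      rcases hχ with rfl | ⟨m, _, rfl⟩
      · exact hcon'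
      · exact (p.not_mem_iff _).2 (hp _))
    have hb1 : ¬ Tr id b ((paramMap g 1).onSentence ψ) := by
      have := hb _ (Finset.mem_insert_self _ _)
      rwa [tr_not] at this
    apply hb1
    rw [tr_paramMap]
    have hb2 : (g.symm ∘ b) 0 ∉ B := by
      intro hmem
      have := hb _ (Finset.mem_insert_of_mem (Finset.mem_image_of_mem _ hmem))
      rw [tr_not, tr_eqS] at this
      apply this
      simp
    have h2 := (tr_equiv g id (g.symm ∘ b) ψ).2 (hall _ hb2)
    have h3 : g ∘ (g.symm ∘ b) = b := by funext i; simp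
    rwa [h3] at h2
  refine SetLike.ext fun ψ => ?_
  constructor
  · intro h
    rw [mem_act_iff] at h
    have := key g _ h
    rwa [onSentence_comp_symm] at this
  · intro h
    rw [mem_act_iff]
    exact key g.symm ψ h

theorem fpt_one : HasFPT diffLang Pt 1 := by
  classical
  intro X hX
  obtain ⟨hne, hcl, hinv⟩ := hX
  by_cases hreal : ∃ p ∈ X, ∀ m, eqS m ∉ p
  · obtain ⟨p, hp, hm⟩ := hreal
    exact ⟨p, hp, fixed_of_not_realised p hm⟩
  exfalso
  push Not at hreal
  have hcomp : IsCompact X := hcl.isCompact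
  obtain ⟨F, hF⟩ := hcomp.elim_finite_subcover
    (fun m : Pt => (diffLang.elementaryDiagram Pt).typesWith (eqS m))
    (fun m => CompleteType.isOpen_typesWith (eqS m))
    (by
      intro p hp
      obtain ⟨m, hm⟩ := hreal p hp
      exact Set.mem_iUnion.2 ⟨m, hm⟩)
  obtain ⟨p, hp⟩ := hne
  obtain ⟨m, hm⟩ := hreal p hp
  obtain ⟨m', hm'⟩ := Infinite.exists_notMem_finset F
  obtain ⟨g, hg, _⟩ := exists_move m m'
  have h1 : eqS m' ∈ act g p := by
    rw [← hg]; exact eqS_act g p m hm
  have h2 := hF (hinv g p hp)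
  simp only [Set.mem_iUnion] at h2
  obtain ⟨m'', hm'', h3⟩ := h2
  have h4 : m' = m'' := eqS_unique _ h1 h3
  exact hm' (h4 ▸ hm'')


/-- the sentence `D(t₀, t₁, t₂, t₃)` -/
noncomputable def relS (t : Fin 4 → (diffLang[[Pt]]).Term (Fin 2)) :
    (diffLang[[Pt]][[Fin 2]]).Sentence :=
  Language.Formula.equivSentence
    (Language.Relations.formula
      (Sum.inl (DiffRel.d : diffLang.Relations 4) : (diffLang[[Pt]]).Relations 4) t)

/-- the sentence `x₀ = x₁` -/
noncomputable def eqVar : (diffLang[[Pt]][[Fin 2]]).Sentence :=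
  Language.Formula.equivSentence
    (Language.Term.equal (Language.Term.var 0 : (diffLang[[Pt]]).Term (Fin 2))
      (Language.Term.var 1))

lemma tr_relS (c : Pt → Pt) (a : Fin 2 → Pt) (t : Fin 4 → (diffLang[[Pt]]).Term (Fin 2)) :
    Tr c a (relS t) ↔
      D (@Language.Term.realize _ Pt (pstr c) _ a (t 0))
        (@Language.Term.realize _ Pt (pstr c) _ a (t 1))
        (@Language.Term.realize _ Pt (pstr c) _ a (t 2))
        (@Language.Term.realize _ Pt (pstr c) _ a (t 3)) := by
  rw [tr_iff_formula]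
  unfold relS
  rw [Equiv.symm_apply_apply]
  exact @Language.Formula.realize_rel _ Pt (pstr c) _ a 4
    (Sum.inl (DiffRel.d : diffLang.Relations 4) : (diffLang[[Pt]]).Relations 4) t

lemma tr_eqVar (c : Pt → Pt) (a : Fin 2 → Pt) : Tr c a eqVar ↔ a 0 = a 1 := by
  rw [tr_iff_formula]
  unfold eqVar
  rw [Equiv.symm_apply_apply]
  rw [@Language.Formula.realize_equal _ Pt (pstr c)]
  rfl

/-- the sentence `D(x₀, x₁, x₀, x₁)`, saying that `x₀` and `x₁` lie in one class -/
noncomputable def sameS : (diffLang[[Pt]][[Fin 2]]).Sentence :=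
  relS ![Language.Term.var 0, Language.Term.var 1, Language.Term.var 0, Language.Term.var 1]

/-- the sentence `D(x₀, x₁, u, v)` -/
noncomputable def orS (u v : Pt) : (diffLang[[Pt]][[Fin 2]]).Sentence :=
  relS ![Language.Term.var 0, Language.Term.var 1, Language.Constants.term (diffLang.con u),
    Language.Constants.term (diffLang.con v)]

lemma tr_sameS (c : Pt → Pt) (a : Fin 2 → Pt) : Tr c a sameS ↔ (a 0).1 = (a 1).1 := by
  unfold sameS
  rw [tr_relS, ← D_same]
  rfl

lemma tr_orS (c : Pt → Pt) (a : Fin 2 → Pt) (u v : Pt) :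
    Tr c a (orS u v) ↔ D (a 0) (a 1) (c u) (c v) := by
  unfold orS
  rw [tr_relS]
  rfl

theorem not_fpt_two : ¬ HasFPT diffLang Pt 2 := by
  classical
  intro hF
  let X : Set (TypeSpace diffLang Pt 2) :=
    (diffLang.elementaryDiagram Pt).typesWith sameS ∩
      (diffLang.elementaryDiagram Pt).typesWith eqVar.not
  have hmem : ∀ p : TypeSpace diffLang Pt 2, p ∈ X ↔ sameS ∈ p ∧ eqVar.not ∈ p :=
    fun p => Iff.rfl
  have hX : IsSubflow X := by
    refine ⟨?_, ?_, ?_⟩
    · refine ⟨(diffLang.elementaryDiagram Pt).typeOf (![(0, 0), (0, 1)] : Fin 2 → Pt), ?_⟩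
      rw [hmem]
      constructor
      · rw [Language.Theory.CompleteType.mem_typeOf, ← tr_id_iff, tr_sameS]
        rfl
      · rw [Language.Theory.CompleteType.mem_typeOf, ← tr_id_iff, tr_not, tr_eqVar]
        show ¬ ((0, 0) : Pt) = (0, 1)
        decide
    · exact (CompleteType.isClosed_typesWith _).inter (CompleteType.isClosed_typesWith _)
    · intro g p hp
      rw [hmem] at hp ⊢
      constructor
      · refine (mem_congr _ ?_).1 ((onSentence_mem_act g p _).2 hp.1)
        intro a
        rw [tr_paramMap, tr_sameS, tr_sameS]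
      · refine (mem_congr _ ?_).1 ((onSentence_mem_act g p _).2 hp.2)
        intro a
        rw [tr_paramMap, tr_not, tr_not, tr_eqVar, tr_eqVar]
  obtain ⟨p, hp, hfix⟩ := hF X hX
  rw [hmem] at hp
  -- the reflection
  let g : Pt ≃[diffLang] Pt := mkAut (Equiv.refl ℕ) (-1) (by ring) (fun _ => 1)
  have hgu : g ((0, 0) : Pt) = ((0, 1) : Pt) := by
    show ((Equiv.refl ℕ) 0, (-1 : ZMod 3) * 0 + 1) = ((0, 1) : Pt)
    decide
  have hgv : g ((0, 1) : Pt) = ((0, 0) : Pt) := by
    show ((Equiv.refl ℕ) 0, (-1 : ZMod 3) * 1 + 1) = ((0, 0) : Pt)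
    decide
  have hrefl : ∀ a : Fin 2 → Pt, Tr id a ((paramMap g 2).onSentence (orS (0, 0) (0, 1))) ↔
      D (a 0) (a 1) (0, 1) (0, 0) := by
    intro a
    rw [tr_paramMap, tr_orS]
    simp only [Function.comp_apply, id_eq, hgu, hgv]
  rcases p.mem_or_not_mem (orS (0, 0) (0, 1)) with h | h
  · have h' : (paramMap g 2).onSentence (orS (0, 0) (0, 1)) ∈ p := by
      have := (onSentence_mem_act g p _).2 h
      rwa [hfix g] at this
    obtain ⟨a, ha⟩ := exists_of_subset p
      {orS (0, 0) (0, 1), (paramMap g 2).onSentence (orS (0, 0) (0, 1))} (by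
        intro ψ hψ
        simp only [Finset.mem_insert, Finset.mem_singleton] at hψ
        rcases hψ with rfl | rfl
        · exact h
        · exact h')
    have h1 := (tr_orS id a (0, 0) (0, 1)).1 (ha _ (by simp))
    have h2 := (hrefl a).1 (ha _ (by simp))
    have h3 := h1.2.2.symm.trans h2.2.2
    simp only [id] at h3
    revert h3
    decide
  · have h' : (paramMap g 2).onSentence (orS (0, 0) (0, 1)).not ∈ p := by
      have := (onSentence_mem_act g p _).2 h
      rwa [hfix g] at this
    obtain ⟨a, ha⟩ := exists_of_subset p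
      {sameS, eqVar.not, (orS (0, 0) (0, 1)).not,
        (paramMap g 2).onSentence (orS (0, 0) (0, 1)).not} (by
        intro ψ hψ
        simp only [Finset.mem_insert, Finset.mem_singleton] at hψ
        rcases hψ with rfl | rfl | rfl | rfl
        · exact hp.1
        · exact hp.2
        · exact h
        · exact h')
    have h1 := (tr_sameS id a).1 (ha _ (by simp))
    have h2 := ha eqVar.not (by simp)
    rw [tr_not, tr_eqVar] at h2
    have h3 := ha (orS (0, 0) (0, 1)).not (by simp)
    rw [tr_not, tr_orS] at h3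
    have h4 := ha ((paramMap g 2).onSentence (orS (0, 0) (0, 1)).not) (by simp)
    have h5 : ¬ D (a 0) (a 1) (0, 1) (0, 0) := by
      rw [← hrefl a]
      rw [tr_paramMap] at h4 ⊢
      rwa [tr_not] at h4
    have h6 : (a 1).2 - (a 0).2 ≠ 0 := by
      intro h0
      exact h2 (Prod.ext h1 (sub_eq_zero.1 h0).symm)
    have h7 : (a 1).2 - (a 0).2 ≠ 1 := by
      intro h0
      apply h3
      refine ⟨h1, rfl, ?_⟩
      rw [h0]
      show (1 : ZMod 3) = 1 - 0
      decide
    have h8 : (a 1).2 - (a 0).2 ≠ -1 := by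
      intro h0
      apply h5
      refine ⟨h1, rfl, ?_⟩
      rw [h0]
      decide
    rcases zmod3_cases 1 ((a 1).2 - (a 0).2) (by decide) with h9 | h9 | h9
    · exact h6 h9
    · exact h7 h9
    · exact h8 h9

/-- There are a countable relational language `L`, an infinite countable ultrahomogeneous
`L`-structure `M` and an integer `n ≥ 1` such that `M` has `FPT_n` but not `FPT_{n+1}`. -/
theorem result : ∃ (L : FirstOrder.Language.{0, 0}) (M : Type) (_ : L.Structure M)
    (_ : Nonempty M), L.IsRelational ∧ Countable (Σ n, L.Relations n) ∧ Countable M ∧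
      Infinite M ∧ L.IsUltrahomogeneous M ∧
      ∃ n : ℕ, 1 ≤ n ∧ HasFPT L M n ∧ ¬ HasFPT L M (n + 1) :=
  ⟨diffLang, Pt, inferInstance, inferInstance, inferInstance, inferInstance, inferInstance,
    inferInstance, ultrahomogeneous, 1, le_refl 1, fpt_one, not_fpt_two⟩

end Pool.Agent.Results.MP_01066e_lc.SeparateFPT
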